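import Mathlib
import Pool.Agent.DDD.Final

namespace Pool.Agent.Results.MP_00994c_nt.LowerBound

/-- The ternary divisor function: the number of ordered triples of positive integers with product `n`
(used for `n ≥ 1` only). -/
noncomputable def d3 (n : ℕ) : ℕ := {t : ℕ × ℕ × ℕ | t.1 * t.2.1 * t.2.2 = n}.ncard

theorem d3_eq {n : ℕ} (hn : 1 ≤ n) : d3 n = Pool.Agent.DDD.d3 n := by
  unfold d3 Pool.Agent.DDD.d3
  rw [← Set.ncard_coe_finset]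
  congr 1
  ext t
  simp only [Set.mem_ofPred_eq, Finset.coe_filter, Finset.mem_product, Nat.mem_divisors]
  constructor
  · intro h
    refine ⟨⟨⟨⟨t.2.1 * t.2.2, by rw [← h]; ring⟩, by omega⟩, ⟨⟨t.1 * t.2.2, by rw [← h]; ring⟩, by omega⟩,
      ⟨t.1 * t.2.1, by rw [← h]; ring⟩, by omega⟩, h⟩
  · exact fun h => h.2

/-- With `C = (1/4) ∏_p (1 - (2/p - 1/p²)²)` (a convergent product of positive factors) and every
`κ < 547/567`, the sum of `d₃(n) d₃(n+1)` over `n ≤ x` is at least `κ C x (log x)⁴` for all large real `x`. -/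
theorem result :
    (Multipliable fun p : Nat.Primes => 1 - (2 / ((p : ℕ) : ℝ) - 1 / ((p : ℕ) : ℝ) ^ 2) ^ 2) ∧
    0 < ∏' p : Nat.Primes, (1 - (2 / ((p : ℕ) : ℝ) - 1 / ((p : ℕ) : ℝ) ^ 2) ^ 2) ∧
    ∀ κ : ℝ, κ < 547 / 567 → ∃ X0 : ℝ, ∀ x : ℝ, X0 ≤ x →
      κ * (1 / 4 * ∏' p : Nat.Primes, (1 - (2 / ((p : ℕ) : ℝ) - 1 / ((p : ℕ) : ℝ) ^ 2) ^ 2)) *
        x * Real.log x ^ 4 ≤
      ∑ n ∈ Finset.Icc 1 ⌊x⌋₊, (d3 n : ℝ) * (d3 (n + 1) : ℝ) := by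
  obtain ⟨h1, h2, h3⟩ := Pool.Agent.DDD.main
  refine ⟨h1, h2, fun κ hκ => ?_⟩
  obtain ⟨X0, h4⟩ := h3 κ hκ
  refine ⟨X0, fun x hx => (h4 x hx).trans (le_of_eq ?_)⟩
  unfold Pool.Agent.DDD.S
  refine Finset.sum_congr rfl fun n hn => ?_
  rw [d3_eq (Finset.mem_Icc.1 hn).1, d3_eq (Nat.succ_le_succ (Nat.zero_le n))]

end Pool.Agent.Results.MP_00994c_nt.LowerBound
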